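import Pool.Agent.Helper37.DG.Stmts2

/-! Distances in dense subsets of planar lattices: number of vectors with a given value of the
form `x ^ 2 + D * y ^ 2` which are free of the primes of `A` (module MULD). -/

set_option autoImplicit false

namespace Pool.Agent.Helper37.DG

open Finset
open scoped Classical

theorem muld_nmD (D : ℕ) (v : ℤ × ℤ) : ((nmD D v : ℕ) : ℤ) = v.1 ^ 2 + (D : ℤ) * v.2 ^ 2 := by
  unfold nmD
  exact Int.natAbs_of_nonneg (by positivity)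

theorem muld_zero (D : ℤ) (hD : 1 ≤ D) (a b : ℤ) (h : a ^ 2 + D * b ^ 2 = 0) : a = 0 ∧ b = 0 := by
  have h1 : 0 ≤ a ^ 2 := sq_nonneg a
  have h2 : 0 ≤ b ^ 2 := sq_nonneg b
  have h3 : b ^ 2 ≤ D * b ^ 2 := by nlinarith
  have h4 : a ^ 2 = 0 := by linarith
  have h5 : b ^ 2 = 0 := by linarith
  exact ⟨by simpa using h4, by simpa using h5⟩

/-- two vectors of the same value in a lattice of index `m` -/
theorem muld_two (D m x y x' y' : ℤ) (hD : 1 ≤ D) (hm : 1 ≤ m) (h1 : x ^ 2 + D * y ^ 2 = m)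
    (h2 : x' ^ 2 + D * y' ^ 2 = m) (hd : m ∣ x * y' - x' * y) :
    (x' = x ∧ y' = y) ∨ (x' = -x ∧ y' = -y) ∨ (x' = -y ∧ y' = x) ∨ (x' = y ∧ y' = -x) := by
  obtain ⟨k, hk⟩ := hd
  have h3 : (x * x' + D * (y * y')) ^ 2 + D * (x * y' - x' * y) ^ 2 = m ^ 2 := by
    calc (x * x' + D * (y * y')) ^ 2 + D * (x * y' - x' * y) ^ 2 =
        (x ^ 2 + D * y ^ 2) * (x' ^ 2 + D * y' ^ 2) := by ring
      _ = m ^ 2 := by rw [h1, h2]; ring
  rw [hk] at h3
  have hm2 : 0 < m ^ 2 := by positivity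
  have h4 : D * k ^ 2 ≤ 1 := by
    by_contra hc
    have hc' : 2 ≤ D * k ^ 2 := by omega
    have : 2 * m ^ 2 ≤ D * (m * k) ^ 2 := by
      calc 2 * m ^ 2 ≤ (D * k ^ 2) * m ^ 2 := mul_le_mul_of_nonneg_right hc' hm2.le
        _ = D * (m * k) ^ 2 := by ring
    nlinarith [sq_nonneg (x * x' + D * (y * y'))]
  have h5 : 0 ≤ k ^ 2 := sq_nonneg k
  by_cases hk0 : k = 0
  · -- determinant zero
    rw [hk0] at h3
    have h6 : (x * x' + D * (y * y')) ^ 2 = m ^ 2 := by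
      rw [← h3]; ring
    rcases sq_eq_sq_iff_eq_or_eq_neg.1 h6 with h | h
    · have h7 : (x' - x) ^ 2 + D * (y' - y) ^ 2 = 0 := by
        calc (x' - x) ^ 2 + D * (y' - y) ^ 2 = (x ^ 2 + D * y ^ 2) + (x' ^ 2 + D * y' ^ 2) -
              2 * (x * x' + D * (y * y')) := by ring
          _ = 0 := by rw [h1, h2, h]; ring
      obtain ⟨a, b⟩ := muld_zero D hD _ _ h7
      exact Or.inl ⟨by linarith, by linarith⟩
    · have h7 : (x' + x) ^ 2 + D * (y' + y) ^ 2 = 0 := by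
        calc (x' + x) ^ 2 + D * (y' + y) ^ 2 = (x ^ 2 + D * y ^ 2) + (x' ^ 2 + D * y' ^ 2) +
              2 * (x * x' + D * (y * y')) := by ring
          _ = 0 := by rw [h1, h2, h]; ring
      obtain ⟨a, b⟩ := muld_zero D hD _ _ h7
      exact Or.inr (Or.inl ⟨by linarith, by linarith⟩)
  · have hk1 : 1 ≤ k ^ 2 := by
      have : 0 < k ^ 2 := by positivity
      omega
    have hD1 : D = 1 := by nlinarith
    have hk2 : k ^ 2 = 1 := by
      rw [hD1] at h4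
      omega
    rw [hD1] at h1 h2
    rcases (sq_eq_sq_iff_eq_or_eq_neg.1 (hk2.trans (one_pow 2).symm)) with h | h
    · have h7 : (x' + y) ^ 2 + 1 * (y' - x) ^ 2 = 0 := by
        calc (x' + y) ^ 2 + 1 * (y' - x) ^ 2 = (x ^ 2 + 1 * y ^ 2) + (x' ^ 2 + 1 * y' ^ 2) -
              2 * (x * y' - x' * y) := by ring
          _ = 0 := by rw [h1, h2, hk, h]; ring
      obtain ⟨a, b⟩ := muld_zero 1 le_rfl _ _ h7
      exact Or.inr (Or.inr (Or.inl ⟨by linarith, by linarith⟩))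
    · have h7 : (x' - y) ^ 2 + 1 * (y' + x) ^ 2 = 0 := by
        calc (x' - y) ^ 2 + 1 * (y' + x) ^ 2 = (x ^ 2 + 1 * y ^ 2) + (x' ^ 2 + 1 * y' ^ 2) +
              2 * (x * y' - x' * y) := by ring
          _ = 0 := by rw [h1, h2, hk, h]; ring
      obtain ⟨a, b⟩ := muld_zero 1 le_rfl _ _ h7
      exact Or.inr (Or.inr (Or.inr ⟨by linarith, by linarith⟩))

theorem muld_lat (D m g : ℕ) (r : ℤ) (hD : 1 ≤ D) (hm : 1 ≤ m) (hg : g ^ 2 ∣ m)
    (S : Finset (ℤ × ℤ)) (hS : ∀ v ∈ S, nmD D v = m)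
    (hL : ∀ v ∈ S, (g : ℤ) ∣ v.2 ∧ ((m / g : ℕ) : ℤ) ∣ v.1 - r * v.2) : S.card ≤ 4 := by
  rcases S.eq_empty_or_nonempty with h | ⟨w, hw⟩
  · rw [h]; simp
  have hgm : g ∣ m := (Dvd.intro_left g (by ring)).trans hg
  have hmg : ((m / g : ℕ) : ℤ) * (g : ℤ) = (m : ℤ) := by
    rw [← Nat.cast_mul, Nat.div_mul_cancel hgm]
  have hsub : S ⊆ {w, (-w.1, -w.2), (-w.2, w.1), (w.2, -w.1)} := by
    intro v hv
    obtain ⟨⟨a, ha⟩, b, hb⟩ := hL w hw
    obtain ⟨⟨a', ha'⟩, b', hb'⟩ := hL v hv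
    have e1 := muld_nmD D w
    have e2 := muld_nmD D v
    rw [hS w hw] at e1
    rw [hS v hv] at e2
    have hd : (m : ℤ) ∣ w.1 * v.2 - v.1 * w.2 := by
      refine ⟨b * a' - b' * a, ?_⟩
      have f1 : w.1 = r * w.2 + ((m / g : ℕ) : ℤ) * b := by linarith
      have f2 : v.1 = r * v.2 + ((m / g : ℕ) : ℤ) * b' := by linarith
      calc w.1 * v.2 - v.1 * w.2 = ((m / g : ℕ) : ℤ) * (b * v.2 - b' * w.2) := by
            rw [f1, f2]; ring
        _ = ((m / g : ℕ) : ℤ) * (g : ℤ) * (b * a' - b' * a) := by rw [ha, ha']; ring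
        _ = (m : ℤ) * (b * a' - b' * a) := by rw [hmg]
    have hD' : (1 : ℤ) ≤ (D : ℤ) := by exact_mod_cast hD
    have hm' : (1 : ℤ) ≤ (m : ℤ) := by exact_mod_cast hm
    have key := muld_two (D : ℤ) (m : ℤ) w.1 w.2 v.1 v.2 hD' hm' e1.symm e2.symm hd
    simp only [Finset.mem_insert, Finset.mem_singleton]
    rcases key with h | h | h | h
    · exact Or.inl (Prod.ext h.1 h.2)
    · exact Or.inr (Or.inl (Prod.ext h.1 h.2))
    · exact Or.inr (Or.inr (Or.inl (Prod.ext h.1 h.2)))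
    · exact Or.inr (Or.inr (Or.inr (Prod.ext h.1 h.2)))
  refine le_trans (Finset.card_le_card hsub) ?_
  refine le_trans (Finset.card_insert_le _ _) ?_
  refine Nat.succ_le_succ (le_trans (Finset.card_insert_le _ _) ?_)
  refine Nat.succ_le_succ (le_trans (Finset.card_insert_le _ _) ?_)
  simp

theorem st_MULD (h1 : ST_IDLD) : ST_MULD := by
  intro D hD
  obtain ⟨C, hC, h2⟩ := h1 D hD
  refine ⟨4 * C, by omega, ?_⟩
  intro j A m hA hm S hS
  obtain ⟨L, hL1, hL2, hL3⟩ := h2 j A m hA hm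
  have hsub : S ⊆ L.biUnion (fun l => S.filter (fun v =>
      (l.1 : ℤ) ∣ v.2 ∧ ((m / l.1 : ℕ) : ℤ) ∣ v.1 - l.2 * v.2)) := by
    intro v hv
    obtain ⟨e1, e2⟩ := hS v hv
    obtain ⟨l, hl, hl2⟩ := hL3 v (by rw [e1]) e2
    rw [Finset.mem_biUnion]
    exact ⟨l, hl, Finset.mem_filter.2 ⟨hv, hl2⟩⟩
  calc S.card ≤ (L.biUnion (fun l => S.filter (fun v =>
      (l.1 : ℤ) ∣ v.2 ∧ ((m / l.1 : ℕ) : ℤ) ∣ v.1 - l.2 * v.2))).card := Finset.card_le_card hsub
    _ ≤ L.card * 4 := by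
        refine Finset.card_biUnion_le_card_mul _ _ _ ?_
        intro l hl
        refine muld_lat D m l.1 l.2 hD hm (hL2 l hl).2 _ ?_ ?_
        · intro v hv
          exact (hS v (Finset.mem_filter.1 hv).1).1
        · intro v hv
          exact (Finset.mem_filter.1 hv).2
    _ ≤ (C * ∏ p ∈ m.primeFactors.filter (fun p => Rel D p ∧ p ∉ A), (m.factorization p + 1)) * 4 :=
        Nat.mul_le_mul_right 4 hL1
    _ = 4 * C * ∏ p ∈ m.primeFactors.filter (fun p => Rel D p ∧ p ∉ A), (m.factorization p + 1) := by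
        ring

end Pool.Agent.Helper37.DG
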